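import Mathlib
import Pool.Agent.Q176.SCube

/-!
# MP_1441be: `SC_p([0,1]^m)` does not embed in `SC_p([0,1]^n)` for `n < m`
-/

namespace Pool.Agent.Results.MP_1441be_gt.NoEmbedding

open Set Topology Filter Q176.SigH Q176.SCube

/-- the predicate on finite sequences attached to a point of the Baire space -/
def R (z : BS) (l : List ℕ) : Prop := z ∈ B (z l)

theorem isClopen_R (l : List ℕ) : IsClopen {z : BS | R z l} := by
  have hc : ∀ c : ℕ, IsClopen {z : BS | z l = c} := fun c =>
    (isClopen_discrete {c}).preimage (continuous_apply l)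
  constructor
  · rw [← isOpen_compl_iff]
    have h1 : {z : BS | R z l}ᶜ = ⋃ c : ℕ, {z : BS | z l = c} ∩ (B c)ᶜ := by
      ext z
      simp [R]
    rw [h1]
    exact isOpen_iUnion fun c => (hc c).isOpen.inter (isClopen_B c).compl.isOpen
  · have h1 : {z : BS | R z l} = ⋃ c : ℕ, {z : BS | z l = c} ∩ B c := by
      ext z
      simp [R]
    rw [h1]
    exact isOpen_iUnion fun c => (hc c).isOpen.inter (isClopen_B c).isOpen

open Classical in
/-- the grid function of `z` -/
noncomputable def Fz (m : ℕ) (z : BS) (k : Fin m → ℕ∞) : Bool := decide (FR m (R z) k)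

theorem gridSC_Fz (m : ℕ) (z : BS) : GridSC (Fz m z) := by
  intro i k
  filter_upwards [FR_eventually (R z) i k] with c hc
  exact decide_eq_decide.2 hc

theorem continuous_Fz {m : ℕ} (k : Fin m → ℕ∞) (hk : ∀ i, k i ≠ ⊤) :
    Continuous fun z => Fz m z k := by
  have h1 := FR_clopen (X := BS) R isClopen_R k hk
  apply continuous_discrete_rng.2
  intro b
  cases b with
  | true =>
    have : (fun z => Fz m z k) ⁻¹' {true} = {z | FR m (R z) k} := by
      ext z
      simp [Fz]
    rw [this]
    exact h1.isOpen
  | false =>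
    have : (fun z => Fz m z k) ⁻¹' {false} = {z | FR m (R z) k}ᶜ := by
      ext z
      simp [Fz]
    rw [this]
    exact h1.compl.isOpen

/-- the space of separately continuous grid functions -/
abbrev S (m : ℕ) : Type := {F : (Fin m → ℕ∞) → Bool // GridSC F}

instance : Countable ℕ∞ := inferInstanceAs (Countable (Option ℕ))

instance (m : ℕ) : SecondCountableTopology (S m) :=
  inferInstanceAs (SecondCountableTopology ↥{F : (Fin m → ℕ∞) → Bool | GridSC F})

/-- the extension map -/
noncomputable def E {m : ℕ} (x : Fin m → I) (F : S m) : SC m := ⟨ext x F.1, ext_SC x F.2⟩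

theorem continuous_E {m : ℕ} (x : Fin m → I) : Continuous (E x) := by
  apply Continuous.subtype_mk
  apply continuous_pi
  intro t
  exact continuous_ext x (fun F : S m => F.1) t fun e =>
    (continuous_apply _).comp continuous_subtype_val

/-- the point of `S m` attached to `z` -/
noncomputable def sz (m : ℕ) (z : BS) : S m := ⟨Fz m z, gridSC_Fz m z⟩

theorem exists_point {m : ℕ} {A : Set (Fin m → I)} (hA : A.Countable) :
    ∃ x : Fin m → I, ∀ a ∈ A, ∀ i, a i ≠ x i := by
  have h1 : ∀ i : Fin m, ∃ t : I, t ∉ (fun a => a i) '' A := by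
    intro i
    by_contra hcon
    push Not at hcon
    have h2 : (univ : Set I).Countable := (hA.image (fun a => a i)).mono fun t _ => hcon t
    have h3 : Countable I := countable_univ_iff.1 h2
    have h4 : (Icc (0 : ℝ) 1).Countable := h3
    exact absurd h4 (Cardinal.Real.Icc_countable_iff.not.2 (by norm_num))
  choose x hx using h1
  exact ⟨x, fun a ha i h => hx i ⟨a, ha, h⟩⟩

/-- the union of the countable sets given by factorization -/
theorem exists_A {m n : ℕ} {T : SC m → SC n} (hT : Continuous T) (D : Set (Fin n → I))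
    (hD : D.Countable) : ∃ A : Set (Fin m → I), A.Countable ∧ ∀ y ∈ D, ∀ (f : SC m) (ε : ℝ),
      0 < ε → ∃ F : Finset (Fin m → I), ↑F ⊆ A ∧ ∃ δ > 0,
      ∀ g : SC m, (∀ a ∈ F, |g.1 a - f.1 a| < δ) → |(T g).1 y - (T f).1 y| < ε := by
  choose A hA h using fun y : Fin n → I => factor (fun f : SC m => (T f).1 y)
    (((continuous_apply y).comp continuous_subtype_val).comp hT)
  refine ⟨⋃ y ∈ D, A y, hD.biUnion fun y _ => hA y, fun y hy f ε hε => ?_⟩
  obtain ⟨F, hF, δ, hδ, h'⟩ := h y f ε hε
  exact ⟨F, hF.trans (subset_biUnion_of_mem (u := fun y => A y) hy), δ, hδ, h'⟩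

/-- the countable dense subset of the interval -/
noncomputable def d : ℕ → I := TopologicalSpace.denseSeq I

/-- the countable dense subset of the cube -/
def DD (n : ℕ) : Set (Fin n → I) := {y | ∀ i, y i ∈ range d}

theorem DD_countable (n : ℕ) : (DD n).Countable := by
  have h1 : DD n ⊆ range (fun c : Fin n → ℕ => fun i => d (c i)) := by
    intro y hy
    choose c hc using hy
    exact ⟨c, funext hc⟩
  exact (countable_range _).mono h1

/-- `SC_p([0,1]^m)` does not embed in `SC_p([0,1]^n)` if `n < m`. -/
theorem not_embed {n m : ℕ} (hnm : n < m) (T : SC m → SC n) : ¬ IsEmbedding T := by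
  classical
  intro hT
  obtain ⟨A, hA, hAT⟩ := exists_A hT.continuous (DD n) (DD_countable n)
  obtain ⟨x, hx⟩ := exists_point hA
  let f : BS → SC m := fun z => E x (sz m z)
  -- continuity of `f` at the points of `A`
  have hfa : ∀ a ∈ A, Continuous fun z => (f z).1 a := by
    intro a ha
    exact continuous_ext x (fun z => Fz m z) a fun e =>
      continuous_Fz _ fun i => idx_ne_top (hx a ha i) _
  -- continuity of `T f` at points of `DD n`
  have hTd : ∀ y ∈ DD n, Continuous fun z => (T (f z)).1 y := by
    intro y hy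
    rw [Metric.continuous_iff']
    intro z₀ ε hε
    obtain ⟨F, hF, δ, hδ, h⟩ := hAT y hy (f z₀) ε hε
    have h1 : ∀ᶠ z in 𝓝 z₀, ∀ a ∈ (F : Set (Fin m → I)), |(f z).1 a - (f z₀).1 a| < δ := by
      apply F.finite_toSet.eventually_all.2
      intro a ha
      have := (Metric.continuous_iff'.1 (hfa a (hF ha))) z₀ δ hδ
      filter_upwards [this] with z hz
      rwa [Real.dist_eq] at hz
    filter_upwards [h1] with z hz
    rw [Real.dist_eq]
    exact h (f z) hz
  -- measurability of all coordinates
  have hmeas : ∀ (j : ℕ) (y : Fin n → I), (Finset.univ.filter fun i => y i ∉ range d).card ≤ j →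
      Meas j fun z => (T (f z)).1 y := by
    intro j
    induction j with
    | zero =>
      intro y hy
      apply Meas.of_continuous
      apply hTd
      intro i
      by_contra hi
      rw [Nat.le_zero, Finset.card_eq_zero] at hy
      have : i ∈ (Finset.univ.filter fun i => y i ∉ range d) :=
        Finset.mem_filter.2 ⟨Finset.mem_univ _, hi⟩
      rw [hy] at this
      exact absurd this (Finset.notMem_empty i)
    | succ j ih =>
      intro y hy
      by_cases hj : (Finset.univ.filter fun i => y i ∉ range d).card ≤ j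
      · intro V hV
        exact (ih y hj V hV).succ
      · have hne : (Finset.univ.filter fun i => y i ∉ range d).Nonempty := by
          rw [← Finset.card_pos]
          omega
        obtain ⟨i, hi⟩ := hne
        have hi' : y i ∉ range d := (Finset.mem_filter.1 hi).2
        obtain ⟨u, hu, hlim⟩ := mem_closure_iff_seq_limit.1
          ((TopologicalSpace.denseRange_denseSeq I) (y i))
        refine Meas.lim (g := fun l z => (T (f z)).1 (Function.update y i (u l))) ?_ ?_
        · intro l
          apply ih
          have hsub : (Finset.univ.filter fun i' => Function.update y i (u l) i' ∉ range d) ⊆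
              (Finset.univ.filter fun i => y i ∉ range d).erase i := by
            intro i' hi'
            rw [Finset.mem_filter] at hi'
            have hii : i' ≠ i := by
              rintro rfl
              rw [Function.update_self] at hi'
              exact hi'.2 (hu l)
            rw [Function.update_of_ne hii] at hi'
            exact Finset.mem_erase.2 ⟨hii, Finset.mem_filter.2 ⟨Finset.mem_univ _, hi'.2⟩⟩
          have := Finset.card_le_card hsub
          rw [Finset.card_erase_of_mem hi] at this
          omega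
        · intro z
          have h1 := ((T (f z)).2 i y).tendsto (y i)
          rw [Function.update_eq_self] at h1
          exact h1.comp hlim
  have hmeas' : ∀ y : Fin n → I, Meas n fun z => (T (f z)).1 y := by
    intro y
    apply hmeas
    exact (Finset.card_le_univ _).trans (by simp)
  -- the open set
  let P : Set (S m) := {F | F.1 (fun _ => ⊤) = true}
  have hPE : ∀ F : S m, F ∈ P ↔ 1 / 2 < (E x F).1 x := by
    intro F
    show F.1 (fun _ => ⊤) = true ↔ 1 / 2 < ext x F.1 x
    rw [ext_self]
    cases h : F.1 (fun _ => ⊤)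
    · simp only [val, Bool.false_eq_true, if_false, false_iff, not_lt]
      norm_num
    · simp only [val, if_true, true_iff]
      norm_num
  have hO : IsOpen {g : SC m | 1 / 2 < g.1 x} :=
    isOpen_lt continuous_const ((continuous_apply x).comp continuous_subtype_val)
  obtain ⟨O, hO1, hO2⟩ := hT.isInducing.isOpen_iff.1 hO
  have hbox : ∀ p : P, ∃ F : Finset (Fin n → I), ∃ δ > 0,
      ∀ g : SC n, (∀ a ∈ F, |g.1 a - (T (E x p.1)).1 a| < δ) → g ∈ O := by
    intro p
    apply exists_nhd hO1
    have : E x p.1 ∈ T ⁻¹' O := by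
      rw [hO2]
      exact (hPE p.1).1 p.2
    exact this
  choose F δ hδ hF using hbox
  let W : P → Set (S m) := fun p => {s | ∀ a ∈ F p, |(T (E x s)).1 a - (T (E x p.1)).1 a| < δ p}
  have hWo : ∀ p, IsOpen (W p) := fun p =>
    (isOpen_box (F p) (T (E x p.1)) (δ p)).preimage (hT.continuous.comp (continuous_E x))
  have hWP : ⋃ p, W p = P := by
    apply Subset.antisymm
    · intro s hs
      obtain ⟨p, hp⟩ := mem_iUnion.1 hs
      have h1 : T (E x s) ∈ O := hF p _ hp
      have h2 : E x s ∈ T ⁻¹' O := h1
      rw [hO2] at h2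
      exact (hPE s).2 h2
    · intro s hs
      refine mem_iUnion.2 ⟨⟨s, hs⟩, fun a _ => ?_⟩
      rw [sub_self, abs_zero]
      exact hδ _
  obtain ⟨C, hC, hCW⟩ := TopologicalSpace.isOpen_iUnion_countable W hWo
  have hdiag : Sig n {z : BS | V m z z} := by
    have h1 : {z : BS | V m z z} = ⋃ p : C, ⋂ a ∈ F p.1,
        (fun z => (T (f z)).1 a) ⁻¹' {v | |v - (T (E x p.1.1)).1 a| < δ p.1} := by
      ext z
      have h2 : z ∈ {z : BS | V m z z} ↔ sz m z ∈ P := by
        show V m z z ↔ Fz m z (fun _ => ⊤) = true
        unfold Fz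
        rw [decide_eq_true_iff, FR_top, V_iff_G]
        rfl
      have h4 : sz m z ∈ P ↔ sz m z ∈ ⋃ i ∈ C, W i := by rw [hCW, hWP]
      rw [h2, h4]
      simp only [mem_iUnion, mem_iInter, mem_preimage]
      constructor
      · rintro ⟨p, hp, h3⟩
        exact ⟨⟨p, hp⟩, fun a ha => h3 a ha⟩
      · rintro ⟨⟨p, hp⟩, h3⟩
        exact ⟨p, hp, fun a ha => h3 a ha⟩
    rw [h1]
    haveI : Countable C := hC.to_subtype
    apply Sig.iUnion_countable
    intro p
    apply Sig.biInter
    intro a _
    apply hmeas' a
    exact isOpen_lt (continuous_id.sub continuous_const).abs continuous_const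
  obtain ⟨k, rfl⟩ : ∃ k, m = k + 1 := ⟨m - 1, by omega⟩
  exact not_sig_diag k (hdiag.mono (by omega))

/-- **Answer to Q1**: for `2 ≤ n < m` the space `SC_p([0,1]^m)` does not embed into
`SC_p([0,1]^n)`. -/
theorem result : ∀ n m : ℕ, 2 ≤ n → n < m → ¬ ∃ T : SC m → SC n, IsEmbedding T := by
  rintro n m - hnm ⟨T, hT⟩
  exact not_embed hnm T hT

end Pool.Agent.Results.MP_1441be_gt.NoEmbedding
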